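import Pool.Agent.Lib_helper48.ShadowingDefs
import Pool.Agent.Lib_helper48.ShadowingProofs

/-!
# Generalized shadowing and specification on sets containing the measure center

Full answer to Q1: almost specification passes from `(X, f)` to every compact invariant set
containing the measure center; the average shadowing property and the asymptotic average
shadowing property do not, not even to the measure center itself.
-/

set_option autoImplicit false

universe u

open Filter Topology MeasureTheory
open Pool.Agent.Lib_helper48.Shadowing

namespace Pool.Agent.Results.MP_7fd9c6_an.MeasureCenter

/-- **Full answer to Q1.**  (AS) For every compact metric space, almost specification of `f`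
passes to every compact invariant set containing the measure center.  (ASP, AASP) There is a
compact system with both the average shadowing property and the asymptotic average shadowing
property whose restriction to its measure center has neither. -/
theorem result :
    (∀ (X : Type u) [MetricSpace X] [CompactSpace X] (f : X → X), Continuous f → HasAS f →
      ∀ A : Set X, IsClosed A → ∀ hA : Set.MapsTo f A A, measureCenter f ⊆ A →
        HasAS (hA.restrict f A A)) ∧
    (∃ (X : Type) (_ : MetricSpace X) (_ : CompactSpace X) (f : X → X) (A : Set X)
        (hA : Set.MapsTo f A A),
      Continuous f ∧ IsClosed A ∧ A = measureCenter f ∧ HasASP f ∧ HasAASP f ∧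
        ¬ HasASP (hA.restrict f A A) ∧ ¬ HasAASP (hA.restrict f A A)) := by
  exact ⟨fun X _ _ f hf hAS A _ hA hM => hasAS_restrict f hf hAS A hA hM, counterexample⟩

end Pool.Agent.Results.MP_7fd9c6_an.MeasureCenter
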